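import Pool.Agent.V11209.TN.Main

/-!
# Coverings, group actions and the comparison with Turán's construction
-/

set_option autoImplicit false

open Finset

namespace Pool.Agent.V11209.TN

open Pool.Agent.H449R2.Fl Pool.Agent.V11328.TD

variable {V : Type} [Fintype V] [DecidableEq V] {k : ℕ} {G H : Finset (Finset V)}
  {T : Finset (Equiv.Perm V)} {side : V → Bool} {blk : V → Fin k}

theorem free_of_covering (hG : Covering G) : K43Free (HH G) := by
  refine ⟨HH_card, fun S hS => ?_⟩
  obtain ⟨s, hs, hsS⟩ := hG.2 S hS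
  refine ⟨s, hsS, hG.1 s hs, ?_⟩
  unfold HH
  rw [mem_sdiff]
  exact fun h => h.2 hs

theorem defect_HH_le (hT : Swaps k T side blk) :
    defect (HH G) T side ≤ defect G T side := by
  unfold defect
  refine Finset.card_le_card_of_injOn (fun p => (p.1, p.1 p.2.1, p.1 p.2.2)) ?_ ?_
  · rintro ⟨τ, x, y⟩ hp
    simp only [coe_filter, mem_product, mem_univ, and_true, Set.mem_setOf_eq] at hp ⊢
    obtain ⟨hτ, hs, h1, h2⟩ := hp
    rw [hT.flip τ hτ x, hT.flip τ hτ y, hT.invol τ hτ x, hT.invol τ hτ y]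
    have h3 : ({x, y, τ x} : Finset V) ∉ G := by
      unfold HH at h1
      rw [mem_sdiff] at h1
      exact h1.2
    have hcard : ({x, y, τ x} : Finset V).card = 3 := HH_card _ h1
    have himg : ({x, y, τ x} : Finset V).image τ = {τ x, τ y, x} := by
      rw [image_insert, image_insert, image_singleton, hT.invol τ hτ x]
    have h4 : ({τ x, τ y, x} : Finset V) ∈ G := by
      by_contra h
      apply h2
      unfold HH
      rw [mem_sdiff, mem_powersetCard]
      refine ⟨⟨subset_univ _, ?_⟩, h⟩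
      rw [← himg, card_image_of_injective _ τ.injective, hcard]
    exact ⟨hτ, by rw [hs], h4, h3⟩
  · rintro ⟨τ, x, y⟩ _ ⟨τ', x', y'⟩ _ h
    simp only [Prod.mk.injEq] at h
    obtain ⟨rfl, h1, h2⟩ := h
    rw [τ.injective h1, τ.injective h2]

/-- A family which preserves the 3-graph has defect zero. -/
theorem defect_zero (hT : Swaps k T side blk) (hinv : ∀ τ ∈ T, ∀ e ∈ H, e.image τ ∈ H) :
    defect H T side = 0 := by
  unfold defect
  rw [card_eq_zero, filter_eq_empty_iff]
  rintro ⟨τ, x, y⟩ hp ⟨-, h1, h2⟩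
  rw [mem_product] at hp
  apply h2
  have himg : ({x, y, τ x} : Finset V).image τ = {τ x, τ y, x} := by
    rw [image_insert, image_insert, image_singleton, hT.invol τ hp.1 x]
  rw [← himg]
  exact hinv τ hp.1 _ h1

omit [Fintype V] in
theorem swaps_of_family (h : SwapFamily k G T side blk) : Swaps k T side blk :=
  ⟨h.invol, h.flip, h.block, h.uniq⟩

theorem cover_one {blk : V → Fin 1} (hG : Covering G) (hT : Swaps 1 T side blk)
    (hne : T.Nonempty) (hs : Function.Surjective blk) :
    Fintype.card V = 2 * T.card ∧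
    (T.card : ℝ) * (T.card - 1) * (11 * T.card - 6) / 18 - (defect G T side : ℝ) / 2 ≤
      G.card := by
  obtain ⟨h1, h2⟩ := one_block (free_of_covering hG) hT hne hs
  refine ⟨h1, ?_⟩
  have h3 : (defect (HH G) T side : ℝ) ≤ defect G T side := by
    exact_mod_cast defect_HH_le hT
  have hadd := card_add hG
  rw [h1] at hadd
  have hadd' : ((HH G).card : ℝ) + G.card = ((2 * T.card).choose 3 : ℕ) := by
    exact_mod_cast hadd
  rw [choose_real _ (by have := hne.card_pos; omega)] at hadd'
  push_cast at hadd'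
  nlinarith [h2, h3, hadd']

theorem cover_two {blk : V → Fin 2} (hG : Covering G) (hT : Swaps 2 T side blk)
    (hne : T.Nonempty) (hs : Function.Surjective blk) :
    Fintype.card V = 4 * T.card ∧
    (143 * (T.card : ℝ) ^ 3 - 210 * (T.card : ℝ) ^ 2 + 40 * T.card) / 30 -
      (defect G T side : ℝ) ≤ G.card := by
  obtain ⟨h1, h2⟩ := two_blocks (free_of_covering hG) hT hne hs
  refine ⟨h1, ?_⟩
  have h3 : (defect (HH G) T side : ℝ) ≤ defect G T side := by
    exact_mod_cast defect_HH_le hT
  have hadd := card_add hG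
  rw [h1] at hadd
  have hadd' : ((HH G).card : ℝ) + G.card = ((4 * T.card).choose 3 : ℕ) := by
    exact_mod_cast hadd
  rw [choose_real _ (by have := hne.card_pos; omega)] at hadd'
  push_cast at hadd'
  nlinarith [h2, h3, hadd']

/-- Comparison with Turán's construction, one block. -/
theorem compare_one {m D c : ℕ}
    (h : (m : ℝ) * (m - 1) * (11 * m - 6) / 18 - (D : ℝ) / 2 ≤ c)
    (hD : 27 * (D : ℝ) ≤ (m : ℝ) ^ 3 + 21 * (m : ℝ) ^ 2 - 30 * m) : turan (2 * m) ≤ c := by
  have h1 := turan_le (2 * m)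
  push_cast at h1
  have h2 : (turan (2 * m) : ℝ) ≤ c := by nlinarith
  exact_mod_cast h2

/-- Comparison with Turán's construction, two blocks. -/
theorem compare_two {m D c : ℕ}
    (h : (143 * (m : ℝ) ^ 3 - 210 * (m : ℝ) ^ 2 + 40 * m) / 30 - (D : ℝ) ≤ c)
    (hD : 270 * (D : ℝ) ≤ 7 * (m : ℝ) ^ 3 - 450 * (m : ℝ) ^ 2 - 120 * m) :
    turan (4 * m) ≤ c := by
  have h1 := turan_le (4 * m)
  push_cast at h1
  have h2 : (turan (4 * m) : ℝ) ≤ c := by nlinarith
  exact_mod_cast h2

end Pool.Agent.V11209.TN
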