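import Pool.Agent.V11209.TN.Near

/-!
# The inequalities for all 3-graphs without complete quadruples, with the defect of a family
-/

set_option autoImplicit false

open Finset

namespace Pool.Agent.V11209.TN

open Pool.Agent.H449R2.Fl Pool.Agent.V11328.TD

variable {V : Type} [Fintype V] [DecidableEq V] {k : ℕ} {H : Finset (Finset V)}
  {T : Finset (Equiv.Perm V)} {side : V → Bool} {blk : V → Fin k}

/-- `H` is a 3-graph in which no four vertices span all four triples. -/
def K43Free (H : Finset (Finset V)) : Prop :=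
  (∀ e ∈ H, e.card = 3) ∧ ∀ Q : Finset V, Q.card = 4 → ∃ e ⊆ Q, e.card = 3 ∧ e ∉ H

omit [Fintype V] in
theorem K43Free.noQ (h : K43Free H) : NoQ (ind H) := K4free_sg h.1 h.2

/-- **One block.** -/
theorem one_block {blk : V → Fin 1} (hH : K43Free H) (hT : Swaps 1 T side blk)
    (hne : T.Nonempty) (hs : Function.Surjective blk) :
    Fintype.card V = 2 * T.card ∧
    (H.card : ℝ) ≤ (T.card : ℝ) * (T.card - 1) * (13 * T.card - 6) / 18 +
      (defect H T side : ℝ) / 2 := by
  have he : Pat (ind H) := ind_pat hH.1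
  have hK := hH.noQ
  set e := ind H with hedef
  set m := T.card with hm
  have hm0 : 0 < m := hne.card_pos
  have hm1 : (1 : ℝ) ≤ m := by exact_mod_cast hm0
  set X := cl side blk 0 false with hX
  set Y := cl side blk 0 true with hY
  have cX : X.card = m := card_cl hT.family hne hs 0 false
  have cY : Y.card = m := card_cl hT.family hne hs 0 true
  have hXY : Disjoint X Y := cl_disj (Or.inr (by simp))
  have hU : (univ : Finset V) = X ∪ Y := by
    ext x
    rw [mem_union, hX, hY, mem_cl, mem_cl]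
    have : blk x = 0 := Subsingleton.elim _ _
    cases side x <;> simp [this]
  have hV : Fintype.card V = 2 * m := by
    rw [← card_univ, hU, card_union_of_disjoint hXY, cX, cY]
    ring
  refine ⟨hV, ?_⟩
  have cX' : (X.card : ℝ) = m := by exact_mod_cast cX
  have cY' : (Y.card : ℝ) = m := by exact_mod_cast cY
  have a1 : S e X Y X = S e X X Y := S_rot he X Y X
  have a2 : S e Y X X = S e X X Y := by rw [S_swap he Y X X, a1]
  have a3 : S e Y X Y = S e Y Y X := S_rot he Y X Y
  have a4 : S e X Y Y = S e Y Y X := by rw [S_swap he X Y Y, a3]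
  have hS : S e (X ∪ Y) (X ∪ Y) (X ∪ Y) =
      (S e X X X + S e Y Y Y) + 3 * (S e X X Y + S e Y Y X) := by
    rw [S_union1 hXY, S_union2 hXY, S_union2 hXY, S_union3 hXY, S_union3 hXY, S_union3 hXY,
      S_union3 hXY, a1, a2, a3, a4]
    ring
  have h6 : S e univ univ univ = 6 * (H.card : ℝ) := by
    unfold S
    exact_mod_cast sum_ind (H := H) hH.1
  rw [hU, hS] at h6
  have b1 := caen he hK X
  have b2 := caen he hK Y
  have b3 := inner_le he hK hT 0 false cX' rfl
  have b4 := inner_le he hK hT 0 true cY' rfl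
  rw [cX'] at b1
  rw [cY'] at b2
  simp only [Bool.not_false, Bool.not_true] at b3 b4
  rw [← hX, ← hY] at b3 b4
  -- the defect
  have hD : (defect H T side : ℝ) = I e T X X + I e T Y Y := by
    rw [defect_eq, hU, sum_union hXY]
    congr 1
    · unfold I
      refine sum_congr rfl fun x hx => ?_
      rw [hX, mem_cl] at hx
      rw [sum_union hXY]
      have h1 : ∑ y ∈ Y, (if side x = side y then F (ind H) T x y else 0) = 0 := by
        refine sum_eq_zero fun y hy => ?_
        rw [hY, mem_cl] at hy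
        rw [if_neg (by rw [hx.2, hy.2]; simp)]
      rw [h1, add_zero]
      refine sum_congr rfl fun y hy => ?_
      rw [hX, mem_cl] at hy
      rw [if_pos (by rw [hx.2, hy.2])]
    · unfold I
      refine sum_congr rfl fun x hx => ?_
      rw [hY, mem_cl] at hx
      rw [sum_union hXY]
      have h1 : ∑ y ∈ X, (if side x = side y then F (ind H) T x y else 0) = 0 := by
        refine sum_eq_zero fun y hy => ?_
        rw [hX, mem_cl] at hy
        rw [if_neg (by rw [hx.2, hy.2]; simp)]
      rw [h1, zero_add]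
      refine sum_congr rfl fun y hy => ?_
      rw [hY, mem_cl] at hy
      rw [if_pos (by rw [hx.2, hy.2])]
  rw [hD]
  nlinarith [h6, b1, b2, b3, b4]

/-- **Two blocks.** -/
theorem two_blocks {blk : V → Fin 2} (hH : K43Free H) (hT : Swaps 2 T side blk)
    (hne : T.Nonempty) (hs : Function.Surjective blk) :
    Fintype.card V = 4 * T.card ∧
    (H.card : ℝ) ≤ 59 / 10 * (T.card : ℝ) ^ 3 - (T.card : ℝ) ^ 2 + (defect H T side : ℝ) := by
  have he : Pat (ind H) := ind_pat hH.1
  have hK := hH.noQ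
  set m := T.card with hm
  have hm0 : 0 < m := hne.card_pos
  have hm1 : (1 : ℝ) ≤ m := by exact_mod_cast hm0
  set e := ind H with hedef
  set A0 := cl side blk 0 false with hA0
  set A1 := cl side blk 0 true with hA1
  set B0 := cl side blk 1 false with hB0
  set B1 := cl side blk 1 true with hB1
  have cA0 : A0.card = m := card_cl hT.family hne hs 0 false
  have cA1 : A1.card = m := card_cl hT.family hne hs 0 true
  have cB0 : B0.card = m := card_cl hT.family hne hs 1 false
  have cB1 : B1.card = m := card_cl hT.family hne hs 1 true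
  have dA : Disjoint A0 A1 := cl_disj (Or.inr (by simp))
  have dB : Disjoint B0 B1 := cl_disj (Or.inr (by simp))
  have d00 : Disjoint A0 B0 := cl_disj (Or.inl (by simp))
  have d01 : Disjoint A0 B1 := cl_disj (Or.inl (by simp))
  have d10 : Disjoint A1 B0 := cl_disj (Or.inl (by simp))
  have d11 : Disjoint A1 B1 := cl_disj (Or.inl (by simp))
  have dAB : Disjoint (A0 ∪ A1) (B0 ∪ B1) := by
    rw [disjoint_union_left, disjoint_union_right, disjoint_union_right]
    exact ⟨⟨d00, d01⟩, d10, d11⟩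
  have hU : (univ : Finset V) = (A0 ∪ A1) ∪ (B0 ∪ B1) := by
    ext x
    rw [mem_union, mem_union, mem_union, hA0, hA1, hB0, hB1, mem_cl, mem_cl, mem_cl, mem_cl]
    have : blk x = 0 ∨ blk x = 1 := by
      have := (blk x).2
      rcases h : (blk x) with ⟨v, hv⟩
      interval_cases v
      · left; rfl
      · right; rfl
    rcases this with h | h <;> cases side x <;> simp [h]
  have hV : Fintype.card V = 4 * m := by
    rw [← card_univ, hU, card_union_of_disjoint dAB, card_union_of_disjoint dA,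
      card_union_of_disjoint dB, cA0, cA1, cB0, cB1]
    ring
  refine ⟨hV, ?_⟩
  have cA0' : (A0.card : ℝ) = m := by exact_mod_cast cA0
  have cA1' : (A1.card : ℝ) = m := by exact_mod_cast cA1
  have cB0' : (B0.card : ℝ) = m := by exact_mod_cast cB0
  have cB1' : (B1.card : ℝ) = m := by exact_mod_cast cB1
  -- symmetry
  have r1 : ∀ P Q : Finset V, S e P Q P = S e P P Q := fun P Q => S_rot he P Q P
  have r2 : ∀ P Q : Finset V, S e Q P P = S e P P Q := fun P Q => by
    rw [S_swap he Q P P, r1]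
  have hUU : ∀ P Q R : Finset V, Disjoint P Q → S e (P ∪ Q) (P ∪ Q) R =
      S e P P R + S e Q Q R + 2 * S e P Q R := by
    intro P Q R h
    rw [S_union1 h, S_union2 h, S_union2 h, S_swap he Q P R]
    ring
  have h3 : ∀ P Q : Finset V, Disjoint P Q → S e (P ∪ Q) (P ∪ Q) (P ∪ Q) =
      S e P P P + S e Q Q Q + 3 * (S e P P Q + S e Q Q P) := by
    intro P Q h
    rw [hUU P Q _ h, S_union3 h, S_union3 h, S_union3 h, r1 P Q, r2 Q P]
    ring
  have hS : S e univ univ univ =
      (S e A0 A0 A0 + S e A1 A1 A1 + 3 * (S e A0 A0 A1 + S e A1 A1 A0)) +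
      (S e B0 B0 B0 + S e B1 B1 B1 + 3 * (S e B0 B0 B1 + S e B1 B1 B0)) +
      3 * ((S e A0 A0 B0 + S e A0 A0 B1 + S e A1 A1 B0 + S e A1 A1 B1) +
        2 * (S e A0 A1 B0 + S e A0 A1 B1)) +
      3 * ((S e B0 B0 A0 + S e B0 B0 A1 + S e B1 B1 A0 + S e B1 B1 A1) +
        2 * (S e B0 B1 A0 + S e B0 B1 A1)) := by
    rw [hU, h3 _ _ dAB, h3 _ _ dA, h3 _ _ dB, hUU _ _ _ dA, hUU _ _ _ dB, S_union3 dB,
      S_union3 dB, S_union3 dB, S_union3 dA, S_union3 dA, S_union3 dA]
    ring
  have h6 : S e univ univ univ = 6 * (H.card : ℝ) := by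
    unfold S
    exact_mod_cast sum_ind (H := H) hH.1
  rw [hS] at h6
  have p00 := pair he hK d00 hm0 cA0 cB0
  have p01 := pair he hK d01 hm0 cA0 cB1
  have p10 := pair he hK d10 hm0 cA1 cB0
  have p11 := pair he hK d11 hm0 cA1 cB1
  have i1 := inner_le he hK hT 0 false cA0' rfl
  have i2 := inner_le he hK hT 0 true cA1' rfl
  have i3 := inner_le he hK hT 1 false cB0' rfl
  have i4 := inner_le he hK hT 1 true cB1' rfl
  have o1 := outer_le he hK hT 0 1 false false cA0' cB0' rfl
  have o2 := outer_le he hK hT 0 1 false true cA0' cB1' rfl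
  have o3 := outer_le he hK hT 0 1 true false cA1' cB0' rfl
  have o4 := outer_le he hK hT 0 1 true true cA1' cB1' rfl
  have s1 : ∀ Q : Finset V, I e T A0 Q = I e T A1 Q := fun Q => I_swap he hT 0 false Q
  have s2 : ∀ Q : Finset V, I e T B0 Q = I e T B1 Q := fun Q => I_swap he hT 1 false Q
  simp only [Bool.not_false, Bool.not_true] at i1 i2 i3 i4 o1 o2 o3 o4
  rw [← hA0, ← hA1] at i1 i2
  rw [← hB0, ← hB1] at i3 i4
  rw [← hA0, ← hB0, ← hA1, ← hB1] at o1
  rw [← hA0, ← hB1, ← hA1, ← hB0] at o2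
  rw [← hA1, ← hB0, ← hA0, ← hB1] at o3
  rw [← hA1, ← hB1, ← hA0, ← hB0] at o4
  have t1 : S e A0 B0 A1 = S e A0 A1 B0 := S_rot he _ _ _
  have t2 : S e A0 B0 B1 = S e B0 B1 A0 := by rw [S_swap he A0 B0 B1, S_rot he B0 A0 B1]
  have t3 : S e A0 B1 A1 = S e A0 A1 B1 := S_rot he _ _ _
  have t4 : S e A0 B1 B0 = S e B0 B1 A0 := by
    rw [S_rot he A0 B1 B0, S_swap he A0 B0 B1, S_rot he B0 A0 B1]
  have t5 : S e A1 B0 A0 = S e A0 A1 B0 := by rw [S_rot he A1 B0 A0, S_swap he A1 A0 B0]
  have t6 : S e A1 B0 B1 = S e B0 B1 A1 := by rw [S_swap he A1 B0 B1, S_rot he B0 A1 B1]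
  have t7 : S e A1 B1 A0 = S e A0 A1 B1 := by rw [S_rot he A1 B1 A0, S_swap he A1 A0 B1]
  have t8 : S e A1 B1 B0 = S e B0 B1 A1 := by
    rw [S_rot he A1 B1 B0, S_swap he A1 B0 B1, S_rot he B0 A1 B1]
  rw [t1, t2] at o1
  rw [t3, t4] at o2
  rw [t5, t6] at o3
  rw [t7, t8] at o4
  -- the defect
  have hD : (I e T A0 A0 + I e T A0 B0 + I e T B0 A0 + I e T B0 B0) +
      (I e T A1 A1 + I e T A1 B1 + I e T B1 A1 + I e T B1 B1) ≤ (defect H T side : ℝ) := by
    rw [defect_eq]
    have dd : Disjoint (A0 ∪ B0) (A1 ∪ B1) := by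
      rw [disjoint_union_left, disjoint_union_right, disjoint_union_right]
      exact ⟨⟨dA, d01⟩, d10.symm, dB⟩
    have hU' : (univ : Finset V) = (A0 ∪ B0) ∪ (A1 ∪ B1) := by
      rw [hU]
      ext x
      simp only [mem_union]
      tauto
    have h0 : ∀ x ∈ A0 ∪ B0, side x = false := by
      intro x hx
      rw [mem_union, hA0, hB0, mem_cl, mem_cl] at hx
      rcases hx with h | h
      · exact h.2
      · exact h.2
    have h1 : ∀ x ∈ A1 ∪ B1, side x = true := by
      intro x hx
      rw [mem_union, hA1, hB1, mem_cl, mem_cl] at hx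
      rcases hx with h | h
      · exact h.2
      · exact h.2
    have key : ∀ (P : Finset V) (b : Bool), (∀ x ∈ P, side x = b) →
        ∑ x ∈ P, ∑ y ∈ P, F e T x y ≤
          ∑ x ∈ P, ∑ y : V, if side x = side y then F (ind H) T x y else 0 := by
      intro P b hP
      refine sum_le_sum fun x hx => ?_
      calc ∑ y ∈ P, F e T x y
          = ∑ y ∈ P, (if side x = side y then F (ind H) T x y else 0) :=
            sum_congr rfl fun y hy => by rw [if_pos (by rw [hP x hx, hP y hy])]
        _ ≤ _ := by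
            refine sum_le_sum_of_subset_of_nonneg (subset_univ _) fun y _ _ => ?_
            split_ifs
            · exact F_nonneg _ _ _ _
            · exact le_rfl
    have e0 : ∑ x ∈ A0 ∪ B0, ∑ y ∈ A0 ∪ B0, F e T x y =
        I e T A0 A0 + I e T A0 B0 + I e T B0 A0 + I e T B0 B0 := by
      unfold I
      rw [sum_union d00]
      simp only [sum_union d00, sum_add_distrib]
      ring
    have e1 : ∑ x ∈ A1 ∪ B1, ∑ y ∈ A1 ∪ B1, F e T x y =
        I e T A1 A1 + I e T A1 B1 + I e T B1 A1 + I e T B1 B1 := by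
      unfold I
      rw [sum_union d11]
      simp only [sum_union d11, sum_add_distrib]
      ring
    have hsp : ∑ x : V, (∑ y : V, if side x = side y then F (ind H) T x y else 0) =
        ∑ x ∈ A0 ∪ B0, (∑ y : V, if side x = side y then F (ind H) T x y else 0) +
        ∑ x ∈ A1 ∪ B1, (∑ y : V, if side x = side y then F (ind H) T x y else 0) := by
      rw [← sum_union dd, ← hU']
    rw [hsp, ← e0, ← e1]
    exact add_le_add (key _ _ h0) (key _ _ h1)
  have u1 := s1 B0
  have u2 := s1 B1
  have u3 := s2 A0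
  have u4 := s2 A1
  have e1 : (m : ℝ) * (m - 1) * m / 2 = (m : ℝ) ^ 3 / 2 - (m : ℝ) ^ 2 / 2 := by ring
  rw [e1] at i1 i2 i3 i4
  have w1 := s1 A0
  have w2 := s1 A1
  have n1 : ∀ P Q : Finset V, 0 ≤ I e T P Q := fun P Q =>
    sum_nonneg fun _ _ => sum_nonneg fun _ _ => F_nonneg _ _ _ _
  have n2 := n1 A0 A0
  have n3 := n1 A1 A1
  have n4 := n1 B0 B0
  have n5 := n1 B1 B1
  linarith

end Pool.Agent.V11209.TN
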