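import Pool.Agent.V11328.TD.Group

/-!
# 3-graphs without complete quadruples and families of involutions which need not preserve them

The bounds of `Pool.Agent.V11328.TD.Main` (helper328) for 3-graphs invariant under a family of
involutions are extended to all 3-graphs, with an error term counting the changes made by the
involutions in the triples which contain an exchanged pair.
-/

set_option autoImplicit false

open Finset

namespace Pool.Agent.V11209.TN

open Pool.Agent.H449R2.Fl Pool.Agent.V11328.TD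

/-- The vertices are divided into `k` blocks, each of which is divided into two sides; `T` is a set
of involutions which preserve the blocks and exchange the two sides of every block, and any
two vertices on different sides of the same block are exchanged by exactly one of them. -/
structure Swaps {V : Type} (k : ℕ)
    (T : Finset (Equiv.Perm V)) (side : V → Bool) (blk : V → Fin k) : Prop where
  invol : ∀ τ ∈ T, ∀ x, τ (τ x) = x
  flip : ∀ τ ∈ T, ∀ x, side (τ x) = !side x
  block : ∀ τ ∈ T, ∀ x, blk (τ x) = blk x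
  uniq : ∀ x y, side x ≠ side y → blk x = blk y → ∃ τ, (τ ∈ T ∧ τ x = y) ∧
    ∀ τ', τ' ∈ T → τ' x = y → τ' = τ

variable {V : Type} [Fintype V] [DecidableEq V] {k : ℕ} {H : Finset (Finset V)}
  {T : Finset (Equiv.Perm V)} {side : V → Bool} {blk : V → Fin k}

theorem Swaps.family (h : Swaps k T side blk) :
    SwapFamily k (∅ : Finset (Finset V)) T side blk :=
  ⟨h.invol, h.flip, h.block, h.uniq, fun _ _ e he => absurd he (by simp)⟩

/-- The number of pairs `(τ, e)`, `τ ∈ T`, `e ∈ H`, such that `e` contains two vertices exchanged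
by `τ` and `τ e ∉ H`: exactly one of the two exchanged vertices, `x`, is on the side of the third
vertex `y`, so that `e = {x, y, τ x}` and `τ e = {τ x, τ y, x}`. -/
def defect (H : Finset (Finset V)) (T : Finset (Equiv.Perm V)) (side : V → Bool) : ℕ :=
  ((T ×ˢ (univ ×ˢ univ)).filter fun p : Equiv.Perm V × V × V =>
    side p.2.1 = side p.2.2 ∧ ({p.2.1, p.2.2, p.1 p.2.1} : Finset V) ∈ H ∧
      ({p.1 p.2.1, p.1 p.2.2, p.2.1} : Finset V) ∉ H).card

/-- One change. -/
def chg (e : V → V → V → ℕ) (τ : Equiv.Perm V) (x y : V) : ℕ :=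
  if e x y (τ x) = 1 ∧ e (τ x) (τ y) x = 0 then 1 else 0

/-- The changes at `x`, `y`. -/
noncomputable def F (e : V → V → V → ℕ) (T : Finset (Equiv.Perm V)) (x y : V) : ℝ :=
  ∑ τ ∈ T, (chg e τ x y : ℝ)

omit [Fintype V] [DecidableEq V] in
theorem F_nonneg (e : V → V → V → ℕ) (T : Finset (Equiv.Perm V)) (x y : V) : 0 ≤ F e T x y :=
  sum_nonneg fun _ _ => Nat.cast_nonneg _

/-- The changes at pairs in `P × Q`. -/
noncomputable def I (e : V → V → V → ℕ) (T : Finset (Equiv.Perm V)) (P Q : Finset V) : ℝ :=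
  ∑ x ∈ P, ∑ y ∈ Q, F e T x y

theorem defect_eq (H : Finset (Finset V)) (T : Finset (Equiv.Perm V)) (side : V → Bool) :
    (defect H T side : ℝ) = ∑ x : V, ∑ y : V, if side x = side y then F (ind H) T x y else 0 := by
  have h1 : ∀ (τ : Equiv.Perm V) (x y : V), (side x = side y ∧
      ({x, y, τ x} : Finset V) ∈ H ∧ ({τ x, τ y, x} : Finset V) ∉ H) ↔
      (side x = side y ∧ ind H x y (τ x) = 1 ∧ ind H (τ x) (τ y) x = 0) := by
    intro τ x y
    unfold ind
    simp
  unfold defect
  rw [card_filter]
  push_cast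
  rw [sum_product]
  simp only [sum_product, h1]
  rw [sum_comm]
  refine sum_congr rfl fun x _ => ?_
  rw [sum_comm]
  refine sum_congr rfl fun y _ => ?_
  unfold F chg
  by_cases h : side x = side y
  · simp [h]
  · simp [h]

omit [Fintype V] [DecidableEq V] in
/-- The four triples in two exchanged pairs. -/
theorem local_le {e : V → V → V → ℕ} (he : Pat e) (hK : NoQ e) {τ : Equiv.Perm V}
    (x y : V) : e x y (τ x) + e x y (τ y) ≤ 1 + chg e τ x y + chg e τ y x := by
  have hK := hK x y (τ x) (τ y)
  have l1 := he.le1 x y (τ x)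
  have l2 := he.le1 x y (τ y)
  have l3 := he.le1 (τ x) (τ y) x
  have l4 := he.le1 (τ x) (τ y) y
  have j1 : e x (τ x) (τ y) = e (τ x) (τ y) x := by
    rw [he.s12 x (τ x) (τ y), he.s23 (τ x) x (τ y)]
  have j2 : e y (τ x) (τ y) = e (τ x) (τ y) y := by
    rw [he.s12 y (τ x) (τ y), he.s23 (τ x) y (τ y)]
  have j3 : e y x (τ y) = e x y (τ y) := he.s12 _ _ _
  have j4 : e (τ y) (τ x) y = e (τ x) (τ y) y := he.s12 _ _ _
  simp only [sg, Nat.add_eq, Nat.mul_eq, j1, j2] at hK
  unfold chg
  rw [j3, j4]
  split_ifs <;> omega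

theorem codeg_le {e : V → V → V → ℕ} (he : Pat e) (hK : NoQ e) (hT : Swaps k T side blk)
    (x y : V) :
    ∑ z ∈ cl side blk (blk x) (!side x), (e x y z : ℝ) +
      ∑ z ∈ cl side blk (blk y) (!side y), (e x y z : ℝ) ≤
        T.card + F e T x y + F e T y x := by
  rw [← sum_swap hT.family (fun z => (e x y z : ℝ)) x,
    ← sum_swap hT.family (fun z => (e x y z : ℝ)) y, ← sum_add_distrib]
  calc ∑ τ ∈ T, ((e x y (τ x) : ℝ) + e x y (τ y)) ≤
        ∑ τ ∈ T, (1 + (chg e τ x y : ℝ) + chg e τ y x) :=
        sum_le_sum fun τ hτ => by exact_mod_cast local_le he hK x y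
    _ = _ := by
        unfold F
        rw [sum_add_distrib, sum_add_distrib]
        simp

/-- Two vertices on one side and the third on the other side of the same block. -/
theorem inner_le {e : V → V → V → ℕ} (he : Pat e) (hK : NoQ e) (hT : Swaps k T side blk)
    (i : Fin k) (b : Bool)
    {m : ℝ} (hc : ((cl side blk i b).card : ℝ) = m) (hTm : (T.card : ℝ) = m) :
    S e (cl side blk i b) (cl side blk i b) (cl side blk i (!b)) ≤
      m * (m - 1) * m / 2 + I e T (cl side blk i b) (cl side blk i b) := by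
  set P := cl side blk i b with hP
  have h1 : ∀ x ∈ P, ∑ y ∈ P, ∑ z ∈ cl side blk i (!b), (e x y z : ℝ) ≤
      (m - 1) * (m / 2) + ∑ y ∈ P, (F e T x y + F e T y x) / 2 := by
    intro x hx
    rw [← Finset.add_sum_erase P _ hx, ← Finset.add_sum_erase P _ hx]
    have h0 : ∑ z ∈ cl side blk i (!b), (e x x z : ℝ) = 0 := by simp [he.dg]
    rw [h0, zero_add]
    have hcard : ((P.erase x).card : ℝ) = m - 1 := by
      rw [card_erase_of_mem hx, Nat.cast_sub (Finset.card_pos.2 ⟨x, hx⟩), hc]
      simp
    have hxx : 0 ≤ (F e T x x + F e T x x) / 2 := by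
      have := F_nonneg e T x x
      linarith
    calc ∑ y ∈ P.erase x, ∑ z ∈ cl side blk i (!b), (e x y z : ℝ)
        ≤ ∑ y ∈ P.erase x, (m / 2 + (F e T x y + F e T y x) / 2) := by
          refine sum_le_sum fun y hy => ?_
          have hy' := Finset.mem_of_mem_erase hy
          rw [hP, mem_cl] at hx hy'
          have h2 := codeg_le he hK hT x y
          rw [hx.1, hx.2, hy'.1, hy'.2, hTm] at h2
          linarith
      _ = (m - 1) * (m / 2) + ∑ y ∈ P.erase x, (F e T x y + F e T y x) / 2 := by
          rw [sum_add_distrib, sum_const, nsmul_eq_mul, hcard]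
      _ ≤ _ := by linarith
  unfold S
  calc _ ≤ ∑ x ∈ P, ((m - 1) * (m / 2) + ∑ y ∈ P, (F e T x y + F e T y x) / 2) := sum_le_sum h1
    _ = _ := by
      rw [sum_add_distrib, sum_const, nsmul_eq_mul, hc]
      have h2 : ∑ x ∈ P, ∑ y ∈ P, (F e T x y + F e T y x) / 2 = I e T P P := by
        have h3 : ∑ x ∈ P, ∑ y ∈ P, (F e T x y + F e T y x) / 2 =
            (∑ x ∈ P, ∑ y ∈ P, F e T x y) / 2 + (∑ x ∈ P, ∑ y ∈ P, F e T y x) / 2 := by
          rw [sum_div, sum_div, ← sum_add_distrib]
          refine sum_congr rfl fun x _ => ?_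
          rw [sum_div, sum_div, ← sum_add_distrib]
          exact sum_congr rfl fun y _ => by ring
        rw [h3, sum_comm (s := P) (t := P) (f := fun x y => F e T y x)]
        unfold I
        ring
      rw [h2]
      ring

/-- Vertices of two blocks. -/
theorem outer_le {e : V → V → V → ℕ} (he : Pat e) (hK : NoQ e) (hT : Swaps k T side blk)
    (i j : Fin k) (b c : Bool)
    {m : ℝ} (h1 : ((cl side blk i b).card : ℝ) = m) (h2 : ((cl side blk j c).card : ℝ) = m)
    (hTm : (T.card : ℝ) = m) :
    S e (cl side blk i b) (cl side blk j c) (cl side blk i (!b)) +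
      S e (cl side blk i b) (cl side blk j c) (cl side blk j (!c)) ≤
        m ^ 3 + I e T (cl side blk i b) (cl side blk j c) +
          I e T (cl side blk j c) (cl side blk i b) := by
  unfold S
  rw [← sum_add_distrib]
  calc _ ≤ ∑ x ∈ cl side blk i b, ∑ y ∈ cl side blk j c, (m + F e T x y + F e T y x) := by
        refine sum_le_sum fun x hx => ?_
        rw [← sum_add_distrib]
        refine sum_le_sum fun y hy => ?_
        rw [mem_cl] at hx hy
        have h3 := codeg_le he hK hT x y
        rwa [hx.1, hx.2, hy.1, hy.2, hTm] at h3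
    _ = _ := by
        have h4 : ∀ x : V, ∑ y ∈ cl side blk j c, (m + F e T x y + F e T y x) =
            m * m + ∑ y ∈ cl side blk j c, F e T x y + ∑ y ∈ cl side blk j c, F e T y x := by
          intro x
          rw [sum_add_distrib, sum_add_distrib, sum_const, nsmul_eq_mul, h2]
        rw [sum_congr rfl fun x _ => h4 x, sum_add_distrib, sum_add_distrib, sum_const,
          nsmul_eq_mul, h1]
        unfold I
        rw [sum_comm (s := cl side blk i b) (t := cl side blk j c) (f := fun x y => F e T y x)]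
        ring

/-- The changes are the same on both sides. -/
theorem I_swap {e : V → V → V → ℕ} (he : Pat e) (hT : Swaps k T side blk) (i : Fin k)
    (b : Bool) (Q : Finset V) :
    I e T (cl side blk i b) Q = I e T (cl side blk i (!b)) Q := by
  have hc : ∀ τ ∈ T, ∀ x y : V, chg e τ (τ x) y = chg e τ x y := by
    intro τ hτ x y
    unfold chg
    rw [hT.invol τ hτ x]
    have j1 : e (τ x) y x = e x y (τ x) := by
      rw [he.s12 (τ x) y x, he.s23 y (τ x) x, he.s12 y x (τ x)]
    have j2 : e x (τ y) (τ x) = e (τ x) (τ y) x := by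
      rw [he.s23 x (τ y) (τ x), he.s12 x (τ x) (τ y), he.s23 (τ x) x (τ y)]
    rw [j1, j2]
  have h1 : ∀ P : Finset V, I e T P Q = ∑ τ ∈ T, ∑ x ∈ P, ∑ y ∈ Q, (chg e τ x y : ℝ) := by
    intro P
    unfold I F
    rw [sum_comm]
    rw [sum_congr rfl fun y _ => sum_comm]
    rw [sum_comm]
    exact sum_congr rfl fun τ _ => sum_comm
  rw [h1, h1]
  refine sum_congr rfl fun τ hτ => ?_
  refine Finset.sum_nbij' (fun x => τ x) (fun x => τ x) ?_ ?_ ?_ ?_ ?_
  · intro x hx
    rw [mem_cl] at hx ⊢
    exact ⟨(hT.block τ hτ x).trans hx.1, (hT.flip τ hτ x).trans (by rw [hx.2])⟩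
  · intro x hx
    rw [mem_cl] at hx ⊢
    exact ⟨(hT.block τ hτ x).trans hx.1, (hT.flip τ hτ x).trans (by rw [hx.2, Bool.not_not])⟩
  · intro x _
    exact hT.invol τ hτ x
  · intro x _
    exact hT.invol τ hτ x
  · intro x _
    exact sum_congr rfl fun y _ => by rw [hc τ hτ x y]

end Pool.Agent.V11209.TN
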